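import Pool.Agent.Helper12.MA.StD

/-!
# Project MA, module CNT: different edges have different servers
-/

set_option autoImplicit false

namespace Pool.Agent.Helper74.MA

open Pool.Agent.Helper12.MA
open Pool.Agent.Helper51.AJ (IsMinor Planar Apex ExMinor Con Tch)
open Pool.Agent.Helper12.NK (rst Kc add cnt Pcy IsFace Cof plus)

theorem hCNT : StSVF → StCRT → StCNT := by
  intro hV hR V _ G hB hno s
  have key : ∀ w : V, ∃ (t : V) (F : Set V), G.Adj s w →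
      (t ≠ s ∧ t ≠ w ∧ Planar (rst G {t, s}ᶜ) ∧ IsFace G {t, s}ᶜ F ∧
        {a | G.Adj s a} \ {w, t} ⊆ F ∧ w ∉ F) := by
    intro w
    by_cases h : G.Adj s w
    · obtain ⟨t, ht⟩ := hB.hd s w h
      obtain ⟨hp, F, h1, h2, h3⟩ := (hV V G hB).2 s w t h ht
      exact ⟨t, F, fun _ => ⟨ht.1, ht.2.1, hp, h1, h2, h3⟩⟩
    · exact ⟨w, ∅, fun h' => absurd h' h⟩
  choose f Γ hf using key
  refine ⟨f, Γ, hf, ?_⟩
  intro w w' hw hw' he
  by_contra hne
  obtain ⟨a1, a2, a3, a4, a5, _⟩ := hf w hw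
  obtain ⟨_, b2, _, b4, b5, _⟩ := hf w' hw'
  rw [← he] at b2 b4 b5
  rw [Set.pair_comm w (f w)] at a5
  rw [Set.pair_comm w' (f w)] at b5
  obtain ⟨p, q, hd⟩ := hR V G s (f w) w w' (Γ w) (Γ w') hB a1 a3 hw hw' a2.symm b2.symm hne a4 b4 a5 b5
  exact hno _ _ _ _ _ _ hd

end Pool.Agent.Helper74.MA
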