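import Pool.Agent.Helper12.MA.StC

/-!
# Project MA, module NCU: there are no cuts
-/

set_option autoImplicit false

namespace Pool.Agent.Helper74.MA

open Pool.Agent.Helper12.MA
open Pool.Agent.Helper51.AJ (IsMinor Planar Apex ExMinor Con Tch)
open Pool.Agent.Helper12.NK (rst Kc add cnt Pcy IsFace Cof plus)

/-- no cut of the first kind -/
private theorem first (hS : StSYM) (hA : StCUA) (hM : StMIN) (hE : StENS) (hE1 : StMCE)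
    (hF : StMCF) {V : Type} [Finite V] (G : SimpleGraph V) (z v p q r r' : V)
    (f1 f2 f3 f4 : Set V) (hC : Cfg G z v p q r r' f1 f2 f3 f4) (σ b : V) (X Y : Set V) :
    ¬ Cut G z v p q r r' f1 f3 σ b X Y := by
  intro hcut
  obtain ⟨hC', _, _, hR⟩ := hS V G z v p q r r' f1 f2 f3 f4 hC
  obtain ⟨_, _, _, hR'⟩ := hS V G z v q p r' r f3 f4 f1 f2 hC'
  obtain ⟨σ₀, b₀, X₀, Y₁, hc0, hmin0⟩ := hM V G z v p q r r' f1 f2 f3 f4 hC ⟨σ, b, X, Y, hcut⟩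
  obtain ⟨a, b', Y₀, X₁, hc1, hmin1⟩ := hM V G z v q p r' r f3 f4 f1 f2 hC'
    ⟨b, σ, Y, X, hR σ b X Y hcut⟩
  have hc1' : Cut G z v p q r r' f1 f3 b' a X₁ Y₀ := hR' a b' Y₀ X₁ hc1
  obtain ⟨_, _, _, _, ⟨x, hx, hxp, hxr, hvx⟩, _⟩ :=
    hA V G z v p q r r' f1 f2 f3 f4 hC σ₀ b₀ X₀ Y₁ hc0
  obtain ⟨_, _, _, _, _, ⟨y, hy, hyq, hyr, hvy⟩⟩ :=
    hA V G z v p q r r' f1 f2 f3 f4 hC b' a X₁ Y₀ hc1'
  have henv : Env G z v p q r r' f1 f2 f3 f4 X₀ Y₀ x y :=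
    { cf := hC
      cX := ⟨σ₀, b₀, Y₁, hc0⟩
      cY := ⟨b', a, X₁, hc1'⟩
      mX := fun σ' b'' X' Y' h => ⟨hmin0 σ' b'' X' Y' h, hmin1 b'' σ' Y' X' (hR σ' b'' X' Y' h)⟩
      xX := hx
      xp := hxp
      xs := hxr
      vx := hvx
      yY := hy
      yq := hyq
      yr := hyr
      vy := hvy }
  have h3 : x ∈ f3 := hE1 V G z v p q r r' f1 f2 f3 f4 X₀ Y₀ x y henv
  have h1 : y ∈ f1 := hE1 V G z v q p r' r f3 f4 f1 f2 Y₀ X₀ y x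
    (hE V G z v p q r r' f1 f2 f3 f4 X₀ Y₀ x y henv).1
  exact hF V G z v p q r r' f1 f2 f3 f4 X₀ Y₀ x y henv h3 h1

theorem hNCU : StSYM → StCUA → StMIN → StENS → StMCE → StMCF → StNCU := by
  intro hS hA hM hE hE1 hF V _ G z v p q r r' f1 f2 f3 f4 hC σ b X Y
  refine ⟨first hS hA hM hE hE1 hF G z v p q r r' f1 f2 f3 f4 hC σ b X Y, ?_⟩
  exact first hS hA hM hE hE1 hF G z v p q r' r f4 f3 f2 f1
    (hS V G z v p q r r' f1 f2 f3 f4 hC).2.1 σ b X Y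

end Pool.Agent.Helper74.MA
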