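import Pool.Agent.Helper12.MA.StB

/-!
# Project MA, module OTT: the three possibilities for `t`
-/

set_option autoImplicit false

namespace Pool.Agent.Helper74.MA

open Pool.Agent.Helper12.MA
open Pool.Agent.Helper51.AJ (IsMinor Planar Apex ExMinor Con Tch)
open Pool.Agent.Helper12.NK (rst Kc add cnt Pcy IsFace Cof plus)

theorem hOTT : StSYM → StOTY → StOTS → StROT → StTOR → StDEG → StOTT := by
  intro hS hY hT hR hTor hDeg V _ G z v p q r r' f1 f2 f3 f4 hC t htv htz htp htq hpl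
  by_cases h1 : Cof (dl G p q) {v}ᶜ p t ∧ Cof (dl G p q) {v}ᶜ q t
  · exact Or.inl h1
  right
  have htr : t ≠ r := by
    intro h
    exact h1 ⟨⟨f1, hC.i1, hC.p1, h ▸ hC.r1⟩, ⟨f2, hC.i2, hC.q2, h ▸ hC.r2⟩⟩
  have hts : t ≠ r' := by
    intro h
    exact h1 ⟨⟨f4, hC.i4, hC.p4, h ▸ hC.s4⟩, ⟨f3, hC.i3, hC.q3, h ▸ hC.s3⟩⟩
  by_cases h2 : ∃ b X Y, Sep G {v, z, t, b} p q X Y ∧ X ≠ {p} ∧ Y ≠ {q}
  · obtain ⟨b, X, Y, hsep, hX, hYq⟩ := h2
    rcases hT V G z v p q r r' f1 f2 f3 f4 hC t b X Y hsep with h | h | h | h | h | h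
    · exact absurd h hX
    · exact absurd h hYq
    · exact Or.inl ⟨Or.inl h.sf, hR V G z v p q r r' f1 f2 f3 f4 hC t b X Y hsep h.sX h.rY hpl⟩
    · exact Or.inl ⟨Or.inr h.bf, hR V G z v p q r r' f1 f2 f3 f4 hC t b X Y hsep h.sX h.rY hpl⟩
    · exact Or.inr ⟨Or.inr h.sf, hR V G z v p q r' r f4 f3 f2 f1
        (hS V G z v p q r r' f1 f2 f3 f4 hC).2.1 t b X Y hsep h.sX h.rY hpl⟩
    · exact Or.inr ⟨Or.inl h.bf, hR V G z v p q r' r f4 f3 f2 f1
        (hS V G z v p q r r' f1 f2 f3 f4 hC).2.1 t b X Y hsep h.sX h.rY hpl⟩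
  · push Not at h2
    have hzp : G.Adj z p := (hC.ds.nb p).2 (Or.inr (Or.inl rfl))
    have hzq : G.Adj z q := (hC.ds.nb q).2 (Or.inr (Or.inr (Or.inl rfl)))
    have hzv : G.Adj z v := (hC.ds.nb v).2 (Or.inl rfl)
    have htriv : ∀ a b L R, Sep G {v, t, a, b} p q L R → L = {p} ∨ R = {q} := by
      intro a b L R hsep
      have hz : z ∈ ({v, t, a, b} : Set V) := by
        by_contra hcon
        have h3 : z ∈ L ∪ R := by
          rw [hsep.cov]
          exact hcon
        rcases h3 with h3 | h3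
        · have := (hsep.only z h3 q hsep.yR hzq).1
          exact G.ne_of_adj hzp this
        · have := (hsep.only p hsep.xL z h3 hzp.symm).2
          exact G.ne_of_adj hzq this
      have hab : ∃ c, ({v, t, a, b} : Set V) = {v, z, t, c} := by
        rcases hz with h | h | h | h
        · exact absurd h (G.ne_of_adj hzv)
        · exact absurd h.symm htz
        · refine ⟨b, ?_⟩
          rw [← h, Set.insert_comm t z {b}]
        · rw [Set.mem_singleton_iff] at h
          refine ⟨a, ?_⟩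
          rw [← h, Set.pair_comm a z, Set.insert_comm t z {a}]
      obtain ⟨c, hc⟩ := hab
      rw [hc] at hsep
      by_cases hL : L = {p}
      · exact Or.inl hL
      · exact Or.inr (h2 c L R hsep hL)
    have hpl' : Planar (rst G {v, t}ᶜ) := by
      rw [Set.pair_comm]
      exact hpl
    have hd := hTor V G v p q t hC.bh hC.ds.pq ⟨hC.ds.ne.1, hC.ds.ne.2.1, hC.ds.pl⟩ htv htp htq hpl' h1 htriv
    exact hDeg V G z v p q r r' f1 f2 f3 f4 hC t htv htz htp htq htr hts hpl hd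

end Pool.Agent.Helper74.MA
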